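import Pool.Agent.helper60.DB.SpecM

set_option autoImplicit false

namespace Pool.Agent.helper60.DB

open Polynomial

/-- the lattice of the multipliers which have a pair, with their types -/
private def LT2_lat (h1 : M1_stmt) (hA : MA_stmt) (hT : TA_stmt) (hP : TP_stmt)
    (K : Type) [Field K] [CharZero K] (A B A' B' : K) (y : PowerSeries K) (hY : Yy A B y) :
    AddSubgroup (K × ℤ) where
  carrier := {x | ∃ g u : PowerSeries K, Ml A' B' y x.1 g u ∧ Ty y x.2 g u}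
  zero_mem' := ⟨0, 1, (h1 K A' B' 0 y 0 1).2.1, (hP K A B y 0 1 0 hY).2.2.1⟩
  add_mem' := by
    rintro ⟨α1, e1⟩ ⟨α2, e2⟩ ⟨g1, u1, hm1, ht1⟩ ⟨g2, u2, hm2, ht2⟩
    obtain ⟨g3, u3, hm3, hf1, hf2⟩ := hA K A' B' α1 α2 y g1 u1 g2 u2 hm1 hm2
    exact ⟨g3, u3, hm3, hT K A B B' A' y g1 u1 g2 u2 g3 u3 e1 e2 hY hm1.cu hm2.cu ht1 ht2 hf1 hf2⟩
  neg_mem' := by
    rintro ⟨α, e⟩ ⟨g, u, hm, ht⟩
    refine ⟨-g, u, (h1 K A' B' α y g u).2.2 hm, ?_⟩
    have h2 := (hP K A B y g u e hY).2.2.2.1 ht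
    exact (hP K A B y (-g) u e hY).2.2.2.2 (-e) ⟨e, by ring⟩ h2

private theorem LT2_ex (h1 : M1_stmt) (hA : MA_stmt) (hT : TA_stmt) (hP : TP_stmt)
    (K : Type) [Field K] [CharZero K] (A B A' B' : K) (y : PowerSeries K) (hY : Yy A B y)
    (μ ν : K) (ε ε' : ℤ) (hμ : ∃ g u : PowerSeries K, Ml A' B' y μ g u ∧ Ty y ε g u)
    (hν : ∃ g u : PowerSeries K, Ml A' B' y ν g u ∧ Ty y ε' g u) (a b : ℤ) :
    ∃ g u : PowerSeries K, Ml A' B' y (a * μ + b * ν) g u ∧ Ty y (ε * a + ε' * b) g u := by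
  have h2 : ((μ, ε) : K × ℤ) ∈ LT2_lat h1 hA hT hP K A B A' B' y hY := hμ
  have h3 : ((ν, ε') : K × ℤ) ∈ LT2_lat h1 hA hT hP K A B A' B' y hY := hν
  have h4 := (LT2_lat h1 hA hT hP K A B A' B' y hY).add_mem
    ((LT2_lat h1 hA hT hP K A B A' B' y hY).zsmul_mem h2 a)
    ((LT2_lat h1 hA hT hP K A B A' B' y hY).zsmul_mem h3 b)
  obtain ⟨g, u, hm, ht⟩ := h4
  refine ⟨g, u, ?_, ?_⟩
  · simpa [zsmul_eq_mul] using hm
  · have h5 : (a • ((μ, ε) : K × ℤ) + b • ((ν, ε') : K × ℤ)).2 = ε * a + ε' * b := by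
      simp [zsmul_eq_mul, mul_comm]
    rw [h5] at ht
    exact ht

private theorem LT2_le (hU : MU_stmt) (hH : HU_stmt) (hE : HE_stmt)
    (K : Type) [Field K] [CharZero K] (A' B' α : K) (y g u g' u' : PowerSeries K)
    (hy : PowerSeries.constantCoeff y = 1) (h : Ml A' B' y α g u) (h' : Ml A' B' y α g' u')
    (d d' : ℕ) (hd : Ht (PowerSeries.X * g ^ 2) d) (hd' : HtLe (PowerSeries.X * g' ^ 2) d') :
    d ≤ d' := by
  obtain ⟨h1, -⟩ := hU K A' B' α y g u g' u' hy h h'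
  subst h1
  obtain ⟨d'', hle, hh⟩ := (hE K _ d').1 hd'
  rw [hH K _ d d'' hd hh]
  exact hle

theorem LT2 (h1 : M1_stmt) (hA : MA_stmt) (hU : MU_stmt) (hMP : MP_stmt) (hT : TA_stmt)
    (hP : TP_stmt) (hH : HU_stmt) (hE : HE_stmt) (hPL : PL_stmt) (hQ : Q2_stmt) (hL : LP_stmt) :
    LT2_stmt := by
  intro K _ _ A B A' B' β μ ν μ' m n ε ε' ε'' εβ σ τ y hY hB hAB hB' hAB' hm hn hβ hOβ hOμ hOν hOμ'
    hσ hτ hμμ hμν
  have hy := hY.one
  have hX : HtLe (PowerSeries.X * (1 : PowerSeries K) ^ 2) 1 := by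
    rw [one_pow, mul_one]
    exact (hE K _ 1).2.1 (hE K 0 0).2.2.2.2
  have hid : Ml A B y 1 1 y := (h1 K A B 1 y 1 y).1 hY
  have hidt : Ty y 1 1 y := (hP K A B y 1 y 1 hY).2.1
  obtain ⟨gμ, uμ, hgμ, htμ, hhμ⟩ := hOμ 1 1 y 1 1 hid hidt hX
  obtain ⟨gν, uν, hgν, htν, hhν⟩ := hOν 1 1 y 1 1 hid hidt hX
  rw [mul_one] at hgμ hgν htμ htν hhμ hhν
  have hex : ∀ a b : ℤ, ∃ g u : PowerSeries K, Ml A' B' y (a * μ + b * ν) g u ∧
      Ty y (ε * a + ε' * b) g u := fun a b =>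
    LT2_ex h1 hA hT hP K A B A' B' y hY μ ν ε ε' ⟨gμ, uμ, hgμ, htμ⟩ ⟨gν, uν, hgν, htν⟩ a b
  choose g u hml hty using hex
  have hhex : ∀ a b : ℤ, ∃ d : ℕ, Ht (PowerSeries.X * (g a b) ^ 2) d := by
    intro a b
    exact (hE K _ 0).2.2.1 ((hP K A B y (g a b) (u a b) _ hY).1 (hty a b))
  choose d hd using hhex
  -- parallelogram law
  have hpar : ∀ a b a' b' : ℤ, d (a + a') (b + b') + d (a - a') (b - b') = 2 * (d a b + d a' b') := by
    intro a b a' b'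
    have h3 : Ml A' B' y ((a * μ + b * ν) + (a' * μ + b' * ν)) (g (a + a') (b + b'))
        (u (a + a') (b + b')) := by
      have h5 := hml (a + a') (b + b')
      have h6 : (((a + a' : ℤ) : K) * μ + ((b + b' : ℤ) : K) * ν) =
          (a * μ + b * ν) + (a' * μ + b' * ν) := by
        push_cast
        ring
      rwa [h6] at h5
    have h4 : Ml A' B' y ((a * μ + b * ν) - (a' * μ + b' * ν)) (g (a - a') (b - b'))
        (u (a - a') (b - b')) := by
      have h5 := hml (a - a') (b - b')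
      have h6 : (((a - a' : ℤ) : K) * μ + ((b - b' : ℤ) : K) * ν) =
          (a * μ + b * ν) - (a' * μ + b' * ν) := by
        push_cast
        ring
      rwa [h6] at h5
    obtain ⟨e1, e2⟩ := hMP K A' B' (a * μ + b * ν) (a' * μ + b' * ν) y (g a b) (u a b) (g a' b')
      (u a' b') _ _ _ _ hy (hml a b) (hml a' b') h3 h4
    exact hPL K A' B' _ _ _ _ _ _ _ _ hB' hAB' (hd a b) (hd a' b') (hd _ _) (hd _ _)
      (by simp) e1 e2
  have hQ2 := hQ (fun a b => (d a b : ℤ)) m n (by exact_mod_cast hm) (by exact_mod_cast hn)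
    (by
      intro a b a' b'
      have h5 := hpar a b a' b'
      have h6 : (((d (a + a') (b + b') + d (a - a') (b - b') : ℕ)) : ℤ) =
          ((2 * (d a b + d a' b') : ℕ) : ℤ) := by rw [h5]
      push_cast at h6
      linarith)
    (by
      have h5 := hml 1 0
      have h6 : (((1 : ℤ) : K) * μ + ((0 : ℤ) : K) * ν) = μ := by
        push_cast
        ring
      rw [h6] at h5
      have h7 := LT2_le hU hH hE K A' B' μ y _ _ gμ uμ hy h5 hgμ _ _ (hd 1 0) hhμ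
      exact_mod_cast h7)
    (by
      have h5 := hml 0 1
      have h6 : (((0 : ℤ) : K) * μ + ((1 : ℤ) : K) * ν) = ν := by
        push_cast
        ring
      rw [h6] at h5
      have h7 := LT2_le hU hH hE K A' B' ν y _ _ gν uν hy h5 hgν _ _ (hd 0 1) hhν
      exact_mod_cast h7)
    (by
      intro a b
      obtain ⟨g', u', hg', -, hh'⟩ := hOμ' _ (g a b) (u a b) _ (d a b) (hml a b) (hty a b)
        ((hE K _ _).2.1 (hd a b))
      obtain ⟨g₀, u₀, hg₀, -, hh₀⟩ := hL K A B β (m * n) εβ y hY hB hAB (Nat.mul_pos hm hn) hβ hOβ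
        (a * σ * m) (b * τ)
      have h6 : (((a * σ * m : ℤ) : K) + ((b * τ : ℤ) : K) * β) = μ' * (a * μ + b * ν) := by
        push_cast
        rw [mul_add]
        have e1 : μ' * (a * μ) = a * (μ' * μ) := by ring
        have e2 : μ' * (b * ν) = b * (μ' * ν) := by ring
        rw [e1, e2, hμμ, hμν]
        ring
      rw [h6] at hg₀
      have h7 := LT2_le hU hH hE K A B _ y _ _ g' u' hy hg₀ hg' _ _ hh₀ hh'
      have h8 : (a * σ * m) ^ 2 + ((m * n : ℕ) : ℤ) * (b * τ) ^ 2 ≤ ((m * d a b : ℕ) : ℤ) := by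
        rw [Int.toNat_le] at h7
        exact h7
      have h9 : (a * σ * m) ^ 2 = (m : ℤ) ^ 2 * a ^ 2 * σ ^ 2 := by ring
      have h10 : (b * τ) ^ 2 = b ^ 2 * τ ^ 2 := by ring
      rw [h9, h10, hσ, hτ] at h8
      push_cast at h8
      linarith)
  intro a b
  refine ⟨g a b, u a b, hml a b, hty a b, ?_⟩
  have h5 := hQ2 a b
  have h6 : ((m : ℤ) * a ^ 2 + n * b ^ 2).toNat = d a b := by
    have h7 : (d a b : ℤ) = (m : ℤ) * a ^ 2 + n * b ^ 2 := h5
    rw [← h7]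
    exact Int.toNat_natCast _
  rw [h6]
  exact hd a b

end Pool.Agent.helper60.DB
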